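import Pool.Agent.CBG.StmtsA

/-!
# Row QAV: the averaged metric
-/

set_option autoImplicit false
set_option maxSynthPendingDepth 3

open scoped Manifold ContDiff Topology
open Set Filter MeasureTheory

namespace Pool.Agent.CBG.H51

open Pool.Agent.CBG

/-- `φ` is continuous with the integral `r` -/
def NI {F : Type} [NormedAddCommGroup F] [NormedSpace ℝ F] (φ : ℝ × ℝ → F) (r : F) : Prop :=
  Continuous φ ∧ r = ∫ t, φ t ∂mu

theorem NI.app (h1 : Mu0Stmt) {V F : Type} [NormedAddCommGroup V] [NormedSpace ℝ V]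
    [NormedAddCommGroup F] [NormedSpace ℝ F] {φ : ℝ × ℝ → V →L[ℝ] F} {r : V →L[ℝ] F}
    (h : NI φ r) (v : V) : NI (fun t => φ t v) (r v) := by
  refine ⟨h.1.clm_apply continuous_const, ?_⟩
  rw [h.2]
  exact ContinuousLinearMap.integral_apply (h1.2.1 _ φ h.1) v

theorem NI.add (h1 : Mu0Stmt) {φ ψ : ℝ × ℝ → ℝ} {r s : ℝ} (h : NI φ r) (h' : NI ψ s) :
    NI (fun t => φ t + ψ t) (r + s) := by
  refine ⟨h.1.add h'.1, ?_⟩
  rw [h.2, h'.2]
  exact (integral_add (h1.2.1 _ φ h.1) (h1.2.1 _ ψ h'.1)).symm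

theorem NI.sub (h1 : Mu0Stmt) {φ ψ : ℝ × ℝ → ℝ} {r s : ℝ} (h : NI φ r) (h' : NI ψ s) :
    NI (fun t => φ t - ψ t) (r - s) := by
  refine ⟨h.1.sub h'.1, ?_⟩
  rw [h.2, h'.2]
  exact (integral_sub (h1.2.1 _ φ h.1) (h1.2.1 _ ψ h'.1)).symm

theorem NI.mul {φ : ℝ × ℝ → ℝ} {r : ℝ} (c : ℝ) (h : NI φ r) :
    NI (fun t => c * φ t) (c * r) := by
  refine ⟨continuous_const.mul h.1, ?_⟩
  rw [h.2]
  exact (integral_const_mul c φ).symm

theorem NI.div {φ : ℝ × ℝ → ℝ} {r : ℝ} (c : ℝ) (h : NI φ r) :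
    NI (fun t => φ t / c) (r / c) := by
  refine ⟨h.1.div_const c, ?_⟩
  rw [h.2]
  exact (integral_div c φ).symm

theorem NI.neg {φ : ℝ × ℝ → ℝ} {r : ℝ} (h : NI φ r) : NI (fun t => -φ t) (-r) := by
  refine ⟨h.1.neg, ?_⟩
  rw [h.2]
  exact (integral_neg φ).symm

/-- **QAV** -/
theorem qav (h1 : Mu0Stmt) (h2 : ParStmt) (h3 : UniStmt) : QavStmt := by
  intro n H X hD G hG
  have hGf : G = fun y => ∫ t, H t y ∂mu := funext hG
  obtain ⟨p1, p2, p3, p4, p5, p6⟩ := h2 n (Bil (Ed n)) (fun q => H q.1 q.2) hD.smooth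
  have hU := h3 n H X hD
  have q0' : NI (fun t => H t 0) (G 0) := ⟨p1, hG 0⟩
  have q1' : NI (fun t => fderiv ℝ (H t) 0) (fderiv ℝ G 0) := ⟨p2, by rw [hGf]; exact p5⟩
  have q2' : NI (fun t => fderiv ℝ (fderiv ℝ (H t)) 0) (fderiv ℝ (fderiv ℝ G) 0) :=
    ⟨p3, by rw [hGf]; exact p6⟩
  have q0 : ∀ v z : Ed n, NI (fun t => H t 0 v z) (G 0 v z) := fun v z =>
    (q0'.app h1 v).app h1 z
  have q1 : ∀ u v z : Ed n, NI (fun t => fderiv ℝ (H t) 0 u v z) (fderiv ℝ G 0 u v z) :=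
    fun u v z => ((q1'.app h1 u).app h1 v).app h1 z
  have q2 : ∀ w u v z : Ed n, NI (fun t => fderiv ℝ (fderiv ℝ (H t)) 0 w u v z)
      (fderiv ℝ (fderiv ℝ G) 0 w u v z) :=
    fun w u v z => (((q2'.app h1 w).app h1 u).app h1 v).app h1 z
  have qc : ∀ v w z : Ed n, NI (fun t => chr (H t) 0 v w z) (chr G 0 v w z) := fun v w z =>
    (((q1 v w z).add h1 (q1 w v z)).sub h1 (q1 z v w)).div 2
  refine ⟨?_, ?_, ?_, ?_, q0, q1, ?_⟩
  · rw [hGf]
    exact p4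
  · filter_upwards [hU] with y hy
    intro v z
    have hy' : NI (fun t => H t y) (G y) := ⟨hy.2, hG y⟩
    rw [((hy'.app h1 v).app h1 z).2, ((hy'.app h1 z).app h1 v).2]
    apply integral_congr_ae
    exact Eventually.of_forall (fun t => hD.symm t y v z)
  · intro v hv
    rw [(q0 v v).2]
    exact h1.2.2.2 _ (q0 v v).1 (fun t => hD.pos t v hv)
  · filter_upwards [hU, hD.shift] with y hy hs
    intro s
    rw [hG, hG]
    have e : (fun t => H t (y + X s)) = fun t => H (t + s) y := funext (fun t => hs t s)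
    rw [e]
    exact h1.2.2.1 _ (fun t => H t y) hy.2 (fun t => hD.per1 t y) (fun t => hD.per2 t y) s
  · intro v z a b c
    exact ((((((((q2 v v z z).add h1 (q2 z z v v)).sub h1 ((q2 v z v z).mul 2)).neg.div 2).add h1
      ((qc v z a).mul 2)).sub h1 (q0 a a)).sub h1 (qc z z b)).sub h1 (qc v v c)).add h1 (q0 b c)

end Pool.Agent.CBG.H51
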